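import Pool.Agent.TH569.HP.Wrap3

/-!
# The strict sign in dimension six: curvature operator nonpositive off a two-plane

At a point of a Riemannian six-manifold with negative sectional curvature where the curvature
operator is nonpositive on `U ∧ V` for one four-dimensional subspace `U` of the tangent space `V`
(a subspace of codimension one in `Λ² V`; nothing else is assumed in the remaining direction), the
Gauss-Bonnet-Chern integrand is negative. Quantitatively, if `K ≤ -κ` and the curvature operator is
at most `-l` on `U ∧ V`, `0 ≤ l ≤ κ`, then the integrand is at most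
`-(κ ^ 3 - (4 / 5) (κ - l) ^ 3)` times its value for constant curvature one.

The proof is in `Pool/Agent/TH569/HP/` (`Strict.lean`, `Wrap2.lean`, `Wrap3.lean`). For the tensor
`-R` let `ν` be the unit decomposable bivector orthogonal to `U ∧ V` and `μ = κ - l`. Then
`S = -R - l R₀ - μ ν ⊗ ν` still has nonnegative sectional curvature and a nonnegative operator on
`U ∧ V`, so its integrand is nonnegative; the terms that come from adding `μ ν ⊗ ν` and `l R₀` back
are four-dimensional Gauss-Bonnet integrands, bounded below by the sectional curvature.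
-/

set_option autoImplicit false

namespace Pool.Agent.Results.MP_f80465_gt.CodimensionTwoStrict

open Hopf6 MeasureTheory Pool.Agent.TH569.HP

/-- **The strict sign in dimension six** for negative curvature and a curvature operator that is
nonpositive on `U ∧ V`, `dim U = 4`. -/
theorem result :
    (∀ (V : Type) [NormedAddCommGroup V] [InnerProductSpace ℝ V]
      (e : OrthonormalBasis (Fin 6) ℝ V) (R : V → V → V → V → ℝ), AlgCurv R →
      ∀ U : Submodule ℝ V, 4 ≤ Module.finrank ℝ U →
        (SecNeg R → OpLEMix R 0 U → Hopf6.gbc e R < 0) ∧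
        ∀ κ l : ℝ, 0 ≤ l → l ≤ κ → SecLE R κ → OpLEMix R l U →
          Hopf6.gbc e R ≤ -(roundGB κ - 4 / 5 * roundGB (κ - l))) ∧
    (∀ (M : Type) [MeasurableSpace M] (μ : Measure M) (K : CurvField M), μ ≠ 0 →
      (∀ p, SecNeg (K.R p) ∧
        ∃ U : Submodule ℝ (K.V p), 4 ≤ Module.finrank ℝ U ∧ OpLEMix (K.R p) 0 U) →
      Integrable K.gbc μ → 0 < -∫ p, K.gbc p ∂μ) := by
  refine ⟨fun V _ _ e R hR U hU => ⟨fun hs hop => neg_strict e hR hs U hU hop,
    fun κ l hl hlκ hs hop => neg_point e hR hl hlκ hs U hU hop⟩, ?_⟩
  intro M _ μ K hμ h hint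
  have h1 : ∀ p, 0 < -K.gbc p := by
    intro p
    obtain ⟨hs, U, hU, hop⟩ := h p
    have := neg_strict (K.e p) (K.curv p) hs U hU hop
    show 0 < -(Hopf6.gbc (K.e p) (K.R p))
    linarith
  rw [← integral_neg, integral_pos_iff_support_of_nonneg (fun p => (h1 p).le) hint.neg]
  have hs : Function.support (fun p => -K.gbc p) = Set.univ := by
    ext p
    simp only [Function.mem_support, Set.mem_univ, iff_true]
    exact (h1 p).ne'
  rw [hs]
  exact pos_iff_ne_zero.2 (by simpa using hμ)

end Pool.Agent.Results.MP_f80465_gt.CodimensionTwoStrict
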