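import Pool.Agent.TH598.GV.Field2

/-!
# Strict sign of the Euler characteristic: negative complex sectional curvature and one hyperplane

Let `n = 2 m` be any even dimension. At a point of a Riemannian `n`-manifold with negative complex
sectional curvature where the curvature operator is nonpositive on the bivectors of ONE hyperplane
of the tangent space, `(-1)^m` times the Gauss–Bonnet–Chern integrand is positive. For a manifold
with nonpositive complex sectional curvature and such hyperplanes everywhere it is enough that the
complex sectional curvature is negative on a set of positive measure.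

The proof is in `Pool/Agent/TH598/GV/` and the files it imports.
-/

set_option autoImplicit false

namespace Pool.Agent.Results.MP_f80465_gt.HyperplaneOperatorStrict

open Pool.Agent.W666.GB Pool.Agent.TH598.GV MeasureTheory

/-- **Strict sign, every even dimension, under negative complex sectional curvature and a curvature
operator that is nonpositive on the bivectors of one hyperplane.** -/
theorem result :
    (∀ (m : ℕ) (V : Type) [NormedAddCommGroup V] [InnerProductSpace ℝ V]
      (e : OrthonormalBasis (Fin m × Bool) ℝ V) (R : V → V → V → V → ℝ), AlgCurv R →
      CxNeg R → ∀ S : Submodule ℝ V, Module.finrank ℝ S + 1 = 2 * m → OpNonposOn R S →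
        0 < (-1) ^ m * gbc e R) ∧
    (∀ (m : ℕ) (M : Type) [MeasurableSpace M] (μ : Measure M) (K : CurvField m M),
      (∀ p, CxNonpos (K.R p) ∧ ∃ S : Submodule ℝ (K.V p),
        Module.finrank ℝ S + 1 = 2 * m ∧ OpNonposOn (K.R p) S) →
      Integrable K.gb μ → μ {p | CxNeg (K.R p)} ≠ 0 → 0 < (-1) ^ m * ∫ p, K.gb p ∂μ) := by
  refine ⟨fun _ _ _ _ e _ hR hC S hS hO => point_strict e hR hC S hS hO, ?_⟩
  intro m M _ μ K h
  refine (field_strong μ K (fun _ => 0) fun p => ⟨le_rfl, ?_, (h p).2⟩).2.2
  have h1 := (h p).1
  intro x y u v
  have h2 := h1 x y u v
  simp only [shiftT, zero_mul, add_zero]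
  exact h2

end Pool.Agent.Results.MP_f80465_gt.HyperplaneOperatorStrict
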