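import Pool.Agent.TH652.Dual7

/-!
# The Singer conjecture for the Davis manifolds of flag spheres in the class `AQ`

Let `L` be the flag complex of the finite graph `G` and suppose that `L` is a real homology manifold with the real
homology of the `(n-1)`-sphere (`HSph n G`; for example a flag triangulation of the `(n-1)`-sphere). The Davis
complex of the right-angled Coxeter group `W G` is then a contractible real homology `n`-manifold (a topological
manifold if `L` is a combinatorial sphere), and its quotient by a torsion-free subgroup of finite index of `W G` is
a closed aspherical `n`-manifold.

The class `AQ n` contains the order complexes of the graded posets of length `n` which are Gorenstein* over `F_2` and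
is closed under the operations listed in its definition. In the even dimensions `n = 2 m + 2` it contains every
flag complex for which the vertices whose links are not in the class `AQ (2 m + 1)` span a subcomplex of dimension
at most `m`.
-/

set_option autoImplicit false

namespace Pool.Agent.Results.MP_f80465_gt.ReflectionManifolds

open Pool.Agent.W907.SG Pool.Agent.TH652.Above

/-- The reduced `ℓ²`-homology of the Davis complex of a flag homology sphere in the class `AQ n` vanishes outside the
middle degree `n / 2`. -/
theorem result : ∀ (n : ℕ) (V : Type) [Fintype V] [LinearOrder V] (G : SimpleGraph V), HSph n G → AQ n G →
    ∀ i : ℕ, 2 * i ≠ n → L2Van G i :=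
  fun _ _ _ _ _ hS hA i hi => singer_AQ hS hA i hi

end Pool.Agent.Results.MP_f80465_gt.ReflectionManifolds
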