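import Pool.Agent.TH594.HP.Field

/-!
# The strict sign in Q2 under a lower bound of the curvature operator and an upper bound of the
scalar curvature

Let `n = 2 m`. For a closed Riemannian `n`-manifold with curvature operator at least `-c` and scalar
curvature less than `-c (n - 1) (n - 2)` everywhere, where `c > 0` may be any function on the
manifold, `(-1)^m χ > 0`. No upper bound of the sectional curvatures is assumed.

The proof is in `Pool/Agent/TH594/HP/` (Gallot–Meyer type inequality for exterior products).
-/

set_option autoImplicit false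

namespace Pool.Agent.Results.MP_f80465_gt.StrictSignScalarPinching

open Pool.Agent.W666.GB Pool.Agent.W669.HD MeasureTheory

/-- **The strict sign for curvature operator `≥ -c` and scalar curvature `< -c (n - 1) (n - 2)`,
`n = 2 m`.** -/
theorem result :
    -- the pointwise sign
    (∀ (m : ℕ) (V : Type) [NormedAddCommGroup V] [InnerProductSpace ℝ V]
      (e : OrthonormalBasis (Fin m × Bool) ℝ V) (R : V → V → V → V → ℝ) (c : ℝ),
      AlgCurv R → 0 < c → OpNonneg (addT R fun x y z w => c * unitT x y z w) →
      scal e R < -(c * ((2 * m - 1) * (2 * m - 2))) → 0 < (-1) ^ m * gbc e R) ∧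
    -- the sign of the integral
    (∀ (m : ℕ) (M : Type) [MeasurableSpace M] (μ : Measure M) (K : CurvField m M) (c : M → ℝ),
      μ ≠ 0 → Integrable K.gb μ →
      (∀ p, 0 < c p ∧ OpNonneg (addT (K.R p) fun x y z w => c p * unitT x y z w) ∧
        scal (K.e p) (K.R p) < -(c p * ((2 * m - 1) * (2 * m - 2)))) →
      0 < (-1) ^ m * ∫ p, K.gb p ∂μ) := by
  refine ⟨fun _ _ _ _ e _ _ hR hc h hs => Pool.Agent.TH594.HP.sign_strict e hR hc h hs, ?_⟩
  intro m M _ μ K c hμ hi h
  refine (Pool.Agent.TH594.HP.field_sign μ K c
    fun p => ⟨(h p).1.le, (h p).2.1, (h p).2.2.le⟩).2 hi ?_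
  have : {p | 0 < c p ∧ scal (K.e p) (K.R p) < -(c p * ((2 * m - 1) * (2 * m - 2)))} =
      Set.univ := Set.eq_univ_of_forall fun p => ⟨(h p).1, (h p).2.2⟩
  rw [this]
  simpa using hμ

end Pool.Agent.Results.MP_f80465_gt.StrictSignScalarPinching
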